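import Mathlib

/-!
There are an amenable (indeed nilpotent, locally finite) discrete group `G` and a closed two-sided
ideal `I` of the convolution algebra `ℓ¹(G)` of infinite codimension such that `I ∩ ℓ¹(H)` has
finite codimension in `ℓ¹(H)` for every abelian subgroup `H` of `G`.
-/

set_option autoImplicit false
set_option linter.unusedSectionVars false
set_option linter.unusedSimpArgs false

namespace Pool.Agent.Results.MP_935ebb_an.Disproof

open Filter Topology

/-- The Banach space `ℓ¹(G)` of complex functions with summable absolute value. -/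
abbrev L1 (G : Type) : Type := lp (fun _ : G => ℂ) 1

/-- The Banach space `ℓ^∞(G)` of bounded complex functions. -/
abbrev Linf (G : Type) : Type := lp (fun _ : G => ℂ) ⊤

lemma summable_L1 {G : Type} (f : L1 G) : Summable fun x => ‖f x‖ := by
  have := lp.memℓp f
  rw [memℓp_gen_iff (by simp)] at this
  simpa using this

lemma memL1 {G : Type} {f : G → ℂ} (h : Summable fun x => ‖f x‖) :
    Memℓp f (1 : ENNReal) := by
  rw [memℓp_gen_iff (by simp)]
  simpa using h

section conv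

variable {G : Type} [Group G]

/-- the bijection `(x, y) ↦ (y, y⁻¹ x)` -/
def shear (G : Type) [Group G] : G × G ≃ G × G where
  toFun p := (p.2, p.2⁻¹ * p.1)
  invFun p := (p.1 * p.2, p.1)
  left_inv p := by ext <;> simp
  right_inv p := by ext <;> simp

lemma summable_prod (f g : L1 G) : Summable fun p : G × G => ‖f p.1‖ * ‖g p.2‖ :=
  (summable_L1 f).mul_of_nonneg (summable_L1 g) (fun _ => norm_nonneg _) fun _ => norm_nonneg _

lemma summable_shear (f g : L1 G) :
    Summable fun p : G × G => ‖f p.2‖ * ‖g (p.2⁻¹ * p.1)‖ :=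
  (shear G).summable_iff.2 (summable_prod f g)

lemma conv_summable (f g : L1 G) :
    Summable fun x => ‖∑' y, f y * g (y⁻¹ * x)‖ := by
  have h := summable_shear f g
  have h1 : Summable fun x => ∑' y, ‖f y‖ * ‖g (y⁻¹ * x)‖ := h.prod
  refine Summable.of_nonneg_of_le (fun _ => norm_nonneg _) (fun x => ?_) h1
  have h2 : Summable fun y => ‖f y * g (y⁻¹ * x)‖ := by
    simpa [norm_mul] using h.prod_factor x
  calc ‖∑' y, f y * g (y⁻¹ * x)‖ ≤ ∑' y, ‖f y * g (y⁻¹ * x)‖ := norm_tsum_le_tsum_norm h2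
    _ = ∑' y, ‖f y‖ * ‖g (y⁻¹ * x)‖ := by simp [norm_mul]

/-- Convolution on `ℓ¹(G)`: `(f * g)(x) = ∑_y f(y) g(y⁻¹ x)`. -/
noncomputable def conv (f g : L1 G) : L1 G :=
  ⟨fun x => ∑' y, f y * g (y⁻¹ * x), memL1 (conv_summable f g)⟩

lemma conv_apply (f g : L1 G) (x : G) : conv f g x = ∑' y, f y * g (y⁻¹ * x) := rfl

/-- The functions in `ℓ¹(G)` supported on the subgroup `H`, that is, `ℓ¹(H)`. -/
def l1sub (H : Subgroup G) : Submodule ℂ (L1 G) where
  carrier := {f | ∀ x, x ∉ H → f x = 0}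
  zero_mem' := fun x _ => rfl
  add_mem' := by
    intro f g hf hg x hx
    rw [lp.coeFn_add, Pi.add_apply, hf x hx, hg x hx, add_zero]
  smul_mem' := by
    intro c f hf x hx
    rw [lp.coeFn_smul, Pi.smul_apply, hf x hx, smul_zero]

/-- `I` is a two-sided ideal of the convolution algebra `ℓ¹(G)`. -/
def IsTwoSidedIdeal (I : Submodule ℂ (L1 G)) : Prop :=
  ∀ f h : L1 G, h ∈ I → conv f h ∈ I ∧ conv h f ∈ I

end conv

/-- The discrete group `G` is amenable: there is a mean `m` on `ℓ^∞(G)` (a functional of norm one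
with value `1` at the constant function `1`) that is invariant under left translations. -/
def Amenable (G : Type) [Group G] : Prop :=
  ∃ m : Linf G →L[ℂ] ℂ, ‖m‖ = 1 ∧ (∀ f : Linf G, (∀ x, f x = 1) → m f = 1) ∧
    ∀ (g : G) (f f' : Linf G), (∀ x, f' x = f (g⁻¹ * x)) → m f' = m f

/-- the finite-codimension condition on abelian subgroups -/
def FiniteCodimOnAbelian {G : Type} [Group G] (I : Submodule ℂ (L1 G)) : Prop :=
  ∀ H : Subgroup G, (∀ x ∈ H, ∀ y ∈ H, x * y = y * x) →
    FiniteDimensional ℂ (l1sub H ⧸ I.comap (l1sub H).subtype)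

/-! ### The group -/

/-- a nilpotent group of class two: `V × (V ⊗ V)` with `V` the countable elementary abelian
`2`-group. -/
@[ext] structure Gp where
  v : ℕ →₀ ZMod 2
  w : ℕ × ℕ →₀ ZMod 2

/-- the bilinear map `V × V → V ⊗ V` -/
noncomputable def beta (a b : ℕ →₀ ZMod 2) : ℕ × ℕ →₀ ZMod 2 :=
  Finsupp.onFinset (a.support ×ˢ b.support) (fun p => a p.1 * b p.2) (by
    intro p hp
    have h1 : a p.1 ≠ 0 := left_ne_zero_of_mul hp
    have h2 : b p.2 ≠ 0 := right_ne_zero_of_mul hp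
    simp [h1, h2])

@[simp] lemma beta_apply (a b : ℕ →₀ ZMod 2) (p : ℕ × ℕ) : beta a b p = a p.1 * b p.2 := rfl

noncomputable instance : Group Gp where
  mul x y := ⟨x.v + y.v, x.w + y.w + beta x.v y.v⟩
  one := ⟨0, 0⟩
  inv x := ⟨-x.v, -x.w + beta x.v x.v⟩
  mul_assoc x y z := by
    apply Gp.ext
    · exact add_assoc _ _ _
    · ext p
      change (x.w + y.w + beta x.v y.v + z.w + beta (x.v + y.v) z.v) p
        = (x.w + (y.w + z.w + beta y.v z.v) + beta x.v (y.v + z.v)) p
      simp only [Finsupp.add_apply, beta_apply]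
      ring
  one_mul x := by
    apply Gp.ext
    · exact zero_add _
    · ext p
      change ((0 : ℕ × ℕ →₀ ZMod 2) + x.w + beta 0 x.v) p = x.w p
      simp
  mul_one x := by
    apply Gp.ext
    · exact add_zero _
    · ext p
      change (x.w + (0 : ℕ × ℕ →₀ ZMod 2) + beta x.v 0) p = x.w p
      simp
  inv_mul_cancel x := by
    apply Gp.ext
    · exact neg_add_cancel _
    · ext p
      change (-x.w + beta x.v x.v + x.w + beta (-x.v) x.v) p = (0 : ℕ × ℕ →₀ ZMod 2) p
      simp only [Finsupp.add_apply, beta_apply, Finsupp.neg_apply, Finsupp.zero_apply]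
      ring

@[simp] lemma mul_v (x y : Gp) : (x * y).v = x.v + y.v := rfl
@[simp] lemma mul_w (x y : Gp) : (x * y).w = x.w + y.w + beta x.v y.v := rfl
@[simp] lemma inv_v (x : Gp) : (x⁻¹).v = -x.v := rfl
@[simp] lemma inv_w (x : Gp) : (x⁻¹).w = -x.w + beta x.v x.v := rfl
@[simp] lemma one_v : (1 : Gp).v = 0 := rfl
@[simp] lemma one_w : (1 : Gp).w = 0 := rfl

lemma zmod2 (a : ZMod 2) : a = 0 ∨ a = 1 := by
  revert a; decide

/-- commuting elements have dependent images in `V` -/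
lemma commute_v {x y : Gp} (h : x * y = y * x) (hx : x.v ≠ 0) (hy : y.v ≠ 0) : x.v = y.v := by
  have hb : ∀ i j, x.v i * y.v j = y.v i * x.v j := by
    intro i j
    have h1 := congrArg Gp.w h
    rw [mul_w, mul_w] at h1
    have h2 := DFunLike.congr_fun h1 (i, j)
    simp only [Finsupp.add_apply, beta_apply] at h2
    have h3 : x.w (i, j) + y.w (i, j) = y.w (i, j) + x.w (i, j) := add_comm _ _
    rw [h3] at h2
    exact add_left_cancel h2
  obtain ⟨i, hi⟩ := Finsupp.ne_iff.1 hx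
  have hi1 : x.v i = 1 := (zmod2 _).resolve_left hi
  have hall : ∀ j, y.v j = y.v i * x.v j := fun j => by
    have := hb i j
    rwa [hi1, one_mul] at this
  rcases zmod2 (y.v i) with h0 | h1
  · exfalso; apply hy; ext j; rw [hall j, h0, zero_mul]; rfl
  · ext j; rw [hall j, h1, one_mul]

/-! ### Amenability -/

/-- the finite subgroups -/
def K (n : ℕ) : Subgroup Gp where
  carrier := {x | (∀ i, n ≤ i → x.v i = 0) ∧ ∀ i j, (n ≤ i ∨ n ≤ j) → x.w (i, j) = 0}
  one_mem' := ⟨fun _ _ => rfl, fun _ _ _ => rfl⟩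
  mul_mem' := by
    rintro x y ⟨h1, h2⟩ ⟨h3, h4⟩
    refine ⟨fun i hi => by simp [h1 i hi, h3 i hi], fun i j hij => ?_⟩
    rw [mul_w]
    simp only [Finsupp.add_apply, h2 i j hij, h4 i j hij, beta_apply]
    rcases hij with h | h
    · rw [h1 i h]; simp
    · rw [h3 j h]; simp
  inv_mem' := by
    rintro x ⟨h1, h2⟩
    refine ⟨fun i hi => by simp [h1 i hi], fun i j hij => ?_⟩
    rw [inv_w]
    simp only [Finsupp.add_apply, Finsupp.neg_apply, h2 i j hij, beta_apply]
    rcases hij with h | h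
    · rw [h1 i h]; simp
    · rw [h1 j h]; simp

lemma mem_K (n : ℕ) (x : Gp) : x ∈ K n ↔
    (∀ i, n ≤ i → x.v i = 0) ∧ ∀ i j, (n ≤ i ∨ n ≤ j) → x.w (i, j) = 0 := Iff.rfl

instance (n : ℕ) : Finite (K n) := by
  let φ : K n → (Fin n → ZMod 2) × (Fin n × Fin n → ZMod 2) :=
    fun x => (fun i => x.1.v i, fun p => x.1.w (p.1, p.2))
  refine Finite.of_injective φ ?_
  rintro ⟨x, hx⟩ ⟨y, hy⟩ hxy
  have h1 : ∀ i : Fin n, x.v i = y.v i := fun i => congrFun (congrArg Prod.fst hxy) i
  have h2 : ∀ p : Fin n × Fin n, x.w (p.1, p.2) = y.w (p.1, p.2) :=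
    fun p => congrFun (congrArg Prod.snd hxy) p
  apply Subtype.ext
  apply Gp.ext
  · ext i
    by_cases hi : n ≤ i
    · rw [hx.1 i hi, hy.1 i hi]
    · exact h1 ⟨i, not_le.1 hi⟩
  · ext ⟨i, j⟩
    by_cases hij : n ≤ i ∨ n ≤ j
    · rw [hx.2 i j hij, hy.2 i j hij]
    · push Not at hij
      exact h2 (⟨i, hij.1⟩, ⟨j, hij.2⟩)

lemma K_mono {m n : ℕ} (h : m ≤ n) : K m ≤ K n := by
  rintro x ⟨h1, h2⟩
  exact ⟨fun i hi => h1 i (h.trans hi), fun i j hij => h2 i j (hij.imp h.trans h.trans)⟩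

lemma exists_K (x : Gp) : ∃ n, x ∈ K n := by
  obtain ⟨a, ha⟩ := x.v.support.bddAbove
  obtain ⟨b, hb⟩ := (x.w.support.image Prod.fst).bddAbove
  obtain ⟨c, hc⟩ := (x.w.support.image Prod.snd).bddAbove
  refine ⟨max a (max b c) + 1, fun i hi => ?_, fun i j hij => ?_⟩
  · by_contra h
    have : i ≤ a := ha (by simpa using h)
    have := le_max_left a (max b c)
    omega
  · by_contra h
    have hmem : (i, j) ∈ x.w.support := by simpa using h
    have h1 : i ≤ b := hb (Finset.mem_coe.2 (Finset.mem_image_of_mem Prod.fst hmem))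
    have h2 : j ≤ c := hc (Finset.mem_coe.2 (Finset.mem_image_of_mem Prod.snd hmem))
    have h3 := (le_max_left b c).trans (le_max_right a (max b c))
    have h4 := (le_max_right b c).trans (le_max_right a (max b c))
    omega

noncomputable instance (n : ℕ) : Fintype (K n) := Fintype.ofFinite _

/-- averages over the finite subgroups -/
noncomputable def avg (n : ℕ) : Linf Gp →L[ℂ] ℂ :=
  LinearMap.mkContinuous
    { toFun := fun f => (Fintype.card (K n) : ℂ)⁻¹ * ∑ x : K n, f x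
      map_add' := fun f g => by
        simp only [lp.coeFn_add, Pi.add_apply, Finset.sum_add_distrib, mul_add]
      map_smul' := fun c f => by
        simp only [lp.coeFn_smul, Pi.smul_apply, smul_eq_mul, ← Finset.mul_sum, RingHom.id_apply]
        ring } 1
    (fun f => by
      have hcard : (0 : ℝ) < Fintype.card (K n) := by
        have := Fintype.card_pos (α := K n)
        exact_mod_cast this
      change ‖(Fintype.card (K n) : ℂ)⁻¹ * ∑ x : K n, f x‖ ≤ 1 * ‖f‖
      rw [norm_mul, norm_inv, Complex.norm_natCast, one_mul, inv_mul_le_iff₀ hcard]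
      calc ‖∑ x : K n, f x‖ ≤ ∑ x : K n, ‖f x‖ := norm_sum_le _ _
        _ ≤ ∑ _x : K n, ‖f‖ := Finset.sum_le_sum fun x _ => lp.norm_apply_le_norm (by simp) f _
        _ = Fintype.card (K n) * ‖f‖ := by
          rw [Finset.sum_const, nsmul_eq_mul, Finset.card_univ])

lemma avg_apply (n : ℕ) (f : Linf Gp) :
    avg n f = (Fintype.card (K n) : ℂ)⁻¹ * ∑ x : K n, f x := rfl

lemma amenable_Gp : Amenable Gp := by
  let U : Ultrafilter ℕ := Ultrafilter.of atTop
  have hU : (U : Filter ℕ) ≤ atTop := Ultrafilter.of_le _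
  let φ : ℕ → WeakDual ℂ (Linf Gp) := fun n => StrongDual.toWeakDual (avg n)
  have hin : ((U.map φ : Ultrafilter _) : Filter (WeakDual ℂ (Linf Gp)))
      ≤ 𝓟 (WeakDual.toStrongDual ⁻¹' Metric.closedBall (0 : Linf Gp →L[ℂ] ℂ) 1) := by
    rw [le_principal_iff]
    change ∀ᶠ n in (U : Filter ℕ), φ n ∈ _
    refine Eventually.of_forall fun n => ?_
    change avg n ∈ Metric.closedBall (0 : Linf Gp →L[ℂ] ℂ) 1
    rw [mem_closedBall_zero_iff]
    exact LinearMap.mkContinuous_norm_le _ zero_le_one _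
  obtain ⟨m, hm, hle⟩ := (WeakDual.isCompact_closedBall (𝕜 := ℂ) (E := Linf Gp) 0 1).ultrafilter_le_nhds _ hin
  have hev : ∀ f : Linf Gp, Tendsto (fun n => avg n f) U (𝓝 (m f)) := by
    intro f
    have h1 : Tendsto φ U (𝓝 m) := hle
    exact ((WeakDual.eval_continuous f).tendsto m).comp h1
  have hnorm : ‖WeakDual.toStrongDual m‖ ≤ 1 := by
    have : WeakDual.toStrongDual m ∈ Metric.closedBall (0 : Linf Gp →L[ℂ] ℂ) 1 := hm
    rwa [mem_closedBall_zero_iff] at this
  have hone : ∀ f : Linf Gp, (∀ x, f x = 1) → WeakDual.toStrongDual m f = 1 := by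
    intro f hf
    refine tendsto_nhds_unique (hev f) (tendsto_const_nhds.congr fun n => ?_)
    rw [avg_apply]
    simp only [hf, Finset.sum_const, Finset.card_univ, nsmul_eq_mul, mul_one]
    have : (Fintype.card (K n) : ℂ) ≠ 0 := by
      have := Fintype.card_pos (α := K n)
      exact_mod_cast this.ne'
    rw [inv_mul_cancel₀ this]
  refine ⟨WeakDual.toStrongDual m, le_antisymm hnorm ?_, hone, ?_⟩
  · let e : Linf Gp := ⟨fun _ => 1, memℓp_infty ⟨1, by rintro _ ⟨x, rfl⟩; simp⟩⟩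
    have he : ‖e‖ ≤ 1 := lp.norm_le_of_forall_le zero_le_one fun x => by
      change ‖(1 : ℂ)‖ ≤ 1; simp
    have h1 : WeakDual.toStrongDual m e = 1 := hone e fun _ => rfl
    calc (1 : ℝ) = ‖WeakDual.toStrongDual m e‖ := by rw [h1, norm_one]
      _ ≤ ‖WeakDual.toStrongDual m‖ * ‖e‖ := (WeakDual.toStrongDual m).le_opNorm e
      _ ≤ ‖WeakDual.toStrongDual m‖ * 1 := by gcongr
      _ = _ := mul_one _
  · intro g f f' hff
    obtain ⟨n0, hn0⟩ := exists_K g
    refine tendsto_nhds_unique (hev f') ((hev f).congr' ?_)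
    have : ∀ᶠ n in (U : Filter ℕ), n0 ≤ n := hU (eventually_ge_atTop n0)
    filter_upwards [this] with n hn
    rw [avg_apply, avg_apply]
    congr 1
    have hg : g ∈ K n := K_mono hn hn0
    simp only [hff]
    have := Equiv.sum_comp (Equiv.mulLeft (⟨g, hg⟩⁻¹ : K n)) (fun x : K n => f x)
    rw [← this]
    rfl

/-! ### The ideal -/

/-- the functional `f ↦ ∑_x f(x) ψ(x)` for bounded `ψ` -/
lemma pair_summable (f : L1 Gp) (ψ : Gp → ℂ) (C : ℝ) (hC : ∀ x, ‖ψ x‖ ≤ C) :
    Summable fun x => f x * ψ x := by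
  refine Summable.of_norm_bounded (g := fun x => ‖f x‖ * C) ((summable_L1 f).mul_right C) ?_
  intro x
  rw [norm_mul]
  exact mul_le_mul_of_nonneg_left (hC x) (norm_nonneg _)

/-- the pairing with a bounded function, as a continuous functional -/
noncomputable def pair (ψ : Gp → ℂ) (C : ℝ) (hC : ∀ x, ‖ψ x‖ ≤ C) : L1 Gp →L[ℂ] ℂ :=
  LinearMap.mkContinuous
    { toFun := fun f => ∑' x, f x * ψ x
      map_add' := fun f g => by
        rw [← (pair_summable f ψ C hC).tsum_add (pair_summable g ψ C hC)]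
        simp only [lp.coeFn_add, Pi.add_apply, add_mul]
      map_smul' := fun c f => by
        simp only [lp.coeFn_smul, Pi.smul_apply, smul_eq_mul, RingHom.id_apply, mul_assoc,
          tsum_mul_left] } C
    (fun f => by
      change ‖∑' x, f x * ψ x‖ ≤ C * ‖f‖
      have h1 : Summable fun x => ‖f x * ψ x‖ := by
        refine Summable.of_nonneg_of_le (fun _ => norm_nonneg _) (fun x => ?_)
          ((summable_L1 f).mul_right C)
        rw [norm_mul]
        exact mul_le_mul_of_nonneg_left (hC x) (norm_nonneg _)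
      calc ‖∑' x, f x * ψ x‖ ≤ ∑' x, ‖f x * ψ x‖ := norm_tsum_le_tsum_norm h1
        _ ≤ ∑' x, ‖f x‖ * C := by
          refine h1.tsum_le_tsum (fun x => ?_) ((summable_L1 f).mul_right C)
          rw [norm_mul]
          exact mul_le_mul_of_nonneg_left (hC x) (norm_nonneg _)
        _ = C * ‖f‖ := by
          rw [tsum_mul_right, mul_comm, lp.norm_eq_tsum_rpow (by simp)]
          simp)

lemma pair_apply (ψ : Gp → ℂ) (C : ℝ) (hC : ∀ x, ‖ψ x‖ ≤ C) (f : L1 Gp) :
    pair ψ C hC f = ∑' x, f x * ψ x := rfl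

/-- the kernel of the map of `ℓ¹(G)` onto `ℓ¹(V)` -/
noncomputable def Id : Submodule ℂ (L1 Gp) where
  carrier := {f | ∀ χ : (ℕ →₀ ZMod 2) → ℂ, (∃ C : ℝ, ∀ v, ‖χ v‖ ≤ C) → ∑' x, f x * χ x.v = 0}
  zero_mem' := by
    intro χ _
    simp
  add_mem' := by
    rintro f g hf hg χ ⟨C, hC⟩
    have h1 := pair_summable f (fun x => χ x.v) C fun x => hC _
    have h2 := pair_summable g (fun x => χ x.v) C fun x => hC _
    have : ∑' x, (f + g) x * χ x.v = ∑' x, f x * χ x.v + ∑' x, g x * χ x.v := by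
      rw [← h1.tsum_add h2]
      simp only [lp.coeFn_add, Pi.add_apply, add_mul]
    rw [this, hf χ ⟨C, hC⟩, hg χ ⟨C, hC⟩, add_zero]
  smul_mem' := by
    rintro c f hf χ hC
    have : ∑' x, (c • f) x * χ x.v = c * ∑' x, f x * χ x.v := by
      simp only [lp.coeFn_smul, Pi.smul_apply, smul_eq_mul, mul_assoc, tsum_mul_left]
    rw [this, hf χ hC, mul_zero]

lemma mem_Id (f : L1 Gp) : f ∈ Id ↔ ∀ χ : (ℕ →₀ ZMod 2) → ℂ, (∃ C : ℝ, ∀ v, ‖χ v‖ ≤ C) →
    ∑' x, f x * χ x.v = 0 := Iff.rfl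

lemma Id_closed : IsClosed (Id : Set (L1 Gp)) := by
  have : (Id : Set (L1 Gp)) = ⋂ (χ : (ℕ →₀ ZMod 2) → ℂ) (C : ℝ) (hC : ∀ v, ‖χ v‖ ≤ C),
      (pair (fun x => χ x.v) C fun x => hC _) ⁻¹' {0} := by
    ext f
    simp only [SetLike.mem_coe, mem_Id, Set.mem_iInter, Set.mem_preimage, Set.mem_singleton_iff,
      pair_apply]
    exact ⟨fun h χ C hC => h χ ⟨C, hC⟩, fun h χ ⟨C, hC⟩ => h χ C hC⟩
  rw [this]
  exact isClosed_iInter fun χ => isClosed_iInter fun C => isClosed_iInter fun hC =>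
    isClosed_singleton.preimage (ContinuousLinearMap.continuous _)

lemma triple_summable (f g : L1 Gp) (ψ : Gp → ℂ) (C : ℝ) (hC : ∀ x, ‖ψ x‖ ≤ C) :
    Summable fun p : Gp × Gp => f p.1 * g p.2 * ψ (p.1 * p.2) := by
  refine Summable.of_norm_bounded (g := fun p : Gp × Gp => ‖f p.1‖ * ‖g p.2‖ * C)
    ((summable_prod f g).mul_right C) ?_
  intro p
  rw [norm_mul, norm_mul]
  exact mul_le_mul_of_nonneg_left (hC _) (by positivity)

lemma conv_pair (f g : L1 Gp) (ψ : Gp → ℂ) (C : ℝ) (hC : ∀ x, ‖ψ x‖ ≤ C) :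
    ∑' x, conv f g x * ψ x = ∑' p : Gp × Gp, f p.1 * g p.2 * ψ (p.1 * p.2) := by
  have hs := triple_summable f g ψ C hC
  rw [← (shear Gp).tsum_eq]
  have hs' := (shear Gp).summable_iff.2 hs
  have e : ∀ q : Gp × Gp, ((fun p : Gp × Gp => f p.1 * g p.2 * ψ (p.1 * p.2)) ∘ (shear Gp)) q
      = f q.2 * g (q.2⁻¹ * q.1) * ψ q.1 := by
    intro q
    simp [shear]
  have e' : ∀ q : Gp × Gp, f (shear Gp q).1 * g (shear Gp q).2 * ψ ((shear Gp q).1 * (shear Gp q).2)
      = f q.2 * g (q.2⁻¹ * q.1) * ψ q.1 := e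
  have hs'' : Summable fun q : Gp × Gp => f q.2 * g (q.2⁻¹ * q.1) * ψ q.1 := by
    refine hs'.congr fun q => (e q).symm ▸ rfl
  simp only [e']
  rw [hs''.tsum_prod]
  refine tsum_congr fun x => ?_
  rw [conv_apply, ← tsum_mul_right]

lemma Id_ideal : IsTwoSidedIdeal Id := by
  intro f h hh
  constructor
  · rintro χ ⟨C, hC⟩
    have hs := triple_summable f h (fun x => χ x.v) C fun x => hC _
    rw [conv_pair f h (fun x => χ x.v) C fun x => hC _, hs.tsum_prod]
    rw [← tsum_zero (α := ℂ) (β := Gp)]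
    refine tsum_congr fun y => ?_
    have := hh (fun v => χ (y.v + v)) ⟨C, fun v => hC _⟩
    simp only [mul_assoc, mul_v]
    rw [tsum_mul_left, this, mul_zero]
  · rintro χ ⟨C, hC⟩
    have hs := triple_summable h f (fun x => χ x.v) C fun x => hC _
    rw [conv_pair h f (fun x => χ x.v) C fun x => hC _]
    rw [← (Equiv.prodComm Gp Gp).tsum_eq]
    have hs' := (Equiv.prodComm Gp Gp).summable_iff.2 hs
    rw [Summable.tsum_prod (by exact hs')]
    rw [← tsum_zero (α := ℂ) (β := Gp)]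
    refine tsum_congr fun z => ?_
    have := hh (fun v => χ (v + z.v)) ⟨C, fun v => hC _⟩
    have e : ∀ y : Gp, h ((Equiv.prodComm Gp Gp) (z, y)).1 * f ((Equiv.prodComm Gp Gp) (z, y)).2
        * χ (((Equiv.prodComm Gp Gp) (z, y)).1 * ((Equiv.prodComm Gp Gp) (z, y)).2).v
        = f z * (h y * χ (y.v + z.v)) := by
      intro y
      simp only [Equiv.prodComm_apply, Prod.swap_prod_mk, mul_v]
      ring
    simp only [e]
    rw [tsum_mul_left, this, mul_zero]

open Classical in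
lemma abelian_fd : FiniteCodimOnAbelian Id := by
  intro H hH
  -- the image of `H` in `V` has at most two elements
  obtain ⟨v0, hv0⟩ : ∃ v0 : ℕ →₀ ZMod 2, ∀ x ∈ H, x.v = 0 ∨ x.v = v0 := by
    by_cases h : ∃ x ∈ H, x.v ≠ 0
    · obtain ⟨x, hx, hx0⟩ := h
      refine ⟨x.v, fun y hy => ?_⟩
      by_cases hy0 : y.v = 0
      · exact Or.inl hy0
      · exact Or.inr (commute_v (hH y hy x hx) hy0 hx0)
    · push Not at h
      exact ⟨0, fun x hx => Or.inl (h x hx)⟩
  let ψ : (ℕ →₀ ZMod 2) → Gp → ℂ := fun v x => if x.v = v then 1 else 0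
  have hψ : ∀ v x, ‖ψ v x‖ ≤ 1 := by
    intro v x
    simp only [ψ]
    split_ifs <;> simp
  let T : l1sub H →ₗ[ℂ] ℂ × ℂ :=
    (((pair (ψ 0) 1 (hψ 0) : L1 Gp →L[ℂ] ℂ) : L1 Gp →ₗ[ℂ] ℂ).comp (l1sub H).subtype).prod
      (((pair (ψ v0) 1 (hψ v0) : L1 Gp →L[ℂ] ℂ) : L1 Gp →ₗ[ℂ] ℂ).comp (l1sub H).subtype)
  have hker : LinearMap.ker T ≤ Id.comap (l1sub H).subtype := by
    intro f hf
    rw [LinearMap.mem_ker] at hf
    have h1 : ∑' x, (f : L1 Gp) x * ψ 0 x = 0 := congrArg Prod.fst hf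
    have h2 : ∑' x, (f : L1 Gp) x * ψ v0 x = 0 := congrArg Prod.snd hf
    rw [Submodule.mem_comap]
    rintro χ ⟨C, hC⟩
    have hs1 := pair_summable (f : L1 Gp) (ψ 0) 1 (hψ 0)
    have hs2 := pair_summable (f : L1 Gp) (ψ v0) 1 (hψ v0)
    by_cases hv : v0 = 0
    · have e : ∀ x, (f : L1 Gp) x * χ x.v = (f : L1 Gp) x * ψ 0 x * χ 0 := by
        intro x
        by_cases hx : x ∈ H
        · have : x.v = 0 := by
            rcases hv0 x hx with h | h
            · exact h
            · rw [h, hv]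
          simp [ψ, this]
        · rw [f.2 x hx]; simp
      change ∑' x, (f : L1 Gp) x * χ x.v = 0
      simp only [e]
      rw [tsum_mul_right, h1, zero_mul]
    · have e : ∀ x, (f : L1 Gp) x * χ x.v
          = (f : L1 Gp) x * ψ 0 x * χ 0 + (f : L1 Gp) x * ψ v0 x * χ v0 := by
        intro x
        by_cases hx : x ∈ H
        · rcases hv0 x hx with h | h
          · simp [ψ, h, Ne.symm hv]
          · simp [ψ, h, hv]
        · rw [f.2 x hx]; simp
      change ∑' x, (f : L1 Gp) x * χ x.v = 0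
      simp only [e]
      rw [(hs1.mul_right _).tsum_add (hs2.mul_right _), tsum_mul_right, tsum_mul_right, h1, h2]
      simp
  have hfd : FiniteDimensional ℂ (l1sub H ⧸ LinearMap.ker T) :=
    LinearEquiv.finiteDimensional (LinearMap.quotKerEquivRange T).symm
  exact Module.Finite.of_surjective (Submodule.factor hker) (Submodule.factor_surjective hker)

open Classical in
/-- the point mass at `(v, 0)` -/
noncomputable def pt (v : ℕ →₀ ZMod 2) : L1 Gp := lp.single 1 (⟨v, 0⟩ : Gp) (1 : ℂ)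

open Classical in
lemma not_fd : ¬ FiniteDimensional ℂ (L1 Gp ⧸ Id) := by
  intro hfd
  have hli : LinearIndependent ℂ
      (fun v : ℕ →₀ ZMod 2 => (Submodule.Quotient.mk (pt v) : L1 Gp ⧸ Id)) := by
    rw [linearIndependent_iff']
    intro s c hsum v hv
    have h1 : (Submodule.Quotient.mk (∑ i ∈ s, c i • pt i) : L1 Gp ⧸ Id) = 0 := by
      change Id.mkQ _ = 0
      simp only [map_sum, map_smul, Submodule.mkQ_apply]
      exact hsum
    rw [Submodule.Quotient.mk_eq_zero] at h1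
    let ψ : Gp → ℂ := fun x => if x.v = v then 1 else 0
    have hψ : ∀ x, ‖ψ x‖ ≤ 1 := by
      intro x
      simp only [ψ]
      split_ifs <;> simp
    have h2 : pair ψ 1 hψ (∑ i ∈ s, c i • pt i) = 0 :=
      h1 (fun u => if u = v then 1 else 0) ⟨1, fun u => by
        split_ifs <;> simp⟩
    have h3 : ∀ i, pair ψ 1 hψ (pt i) = if i = v then 1 else 0 := by
      intro i
      rw [pair_apply, tsum_eq_single (⟨i, 0⟩ : Gp)]
      · simp [pt, ψ]
      · intro y hy
        have : pt i y = 0 := by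
          simp only [pt]
          rw [lp.single_apply_ne _ _ _ hy]
        rw [this, zero_mul]
    simp only [map_sum, map_smul, h3, smul_eq_mul, mul_ite, mul_one, mul_zero] at h2
    rw [Finset.sum_ite_eq' s v c, if_pos hv] at h2
    exact h2
  have := hli.finite
  exact not_finite (ℕ →₀ ZMod 2)

/-- **Disproof.** An amenable discrete group `G` and a closed two-sided ideal `I` of `ℓ¹(G)` of
infinite codimension whose intersection with `ℓ¹(H)` has finite codimension in `ℓ¹(H)` for every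
abelian subgroup `H`. -/
theorem result : ∃ (G : Type) (_ : Group G), Amenable G ∧
    ∃ I : Submodule ℂ (L1 G), IsClosed (I : Set (L1 G)) ∧ IsTwoSidedIdeal I ∧
      FiniteCodimOnAbelian I ∧ ¬ FiniteDimensional ℂ (L1 G ⧸ I) :=
  ⟨Gp, inferInstance, amenable_Gp, Id, Id_closed, Id_ideal, abelian_fd, not_fd⟩

end Pool.Agent.Results.MP_935ebb_an.Disproof
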